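import Mathlib
import Pool.Prelude.Def_F_b2ee6af0
import Pool.Agent.Hhelper69.Cov.DilMain

/-!
One residue class for each prime in `[N^α, 2N^α)`, `1/2 < α < 1`: for every choice `a` of residues
almost all dilated choices `l * a`, `l ≤ N^(2α-1)`, cover `N^(1-o(1))` integers of `[1, N]`.
-/

set_option autoImplicit false

namespace Pool.Agent.Results.MP_4d2d66_nt.Dilates

open Filter Topology N7c497599

/-- Let `1/2 < α < 1` and `δ > 0`. For all large `N`, all integers `L < N^α`, all real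
`hi ≥ 2N^α`, every choice `a` of one residue class modulo each prime in `[N^α, hi)` and every real
`M ≥ 0`: at most `M N^δ (N^(2α-2) + L/N)` of the dilated choices `l a`, `1 ≤ l ≤ L`, cover fewer
than `M` integers of `[1, N]`. -/
theorem result (α δ : ℝ) (hα : 1 / 2 < α) (hα1 : α < 1) (hδ : 0 < δ) :
    ∀ᶠ N : ℕ in atTop, ∀ L : ℕ, (L : ℝ) < (N : ℝ) ^ α → ∀ hi : ℝ, 2 * (N : ℝ) ^ α ≤ hi →
      ∀ a : ℕ → ℤ, ∀ M : ℝ, 0 ≤ M →
      (((Finset.Icc 1 L).filter fun l : ℕ =>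
        (sievedCard N (fun p => l * a p) ((N : ℝ) ^ α) hi : ℝ) < M).card : ℝ) ≤
        M * (N : ℝ) ^ δ * ((N : ℝ) ^ (2 * α - 2) + L / N) :=
  Pool.Agent.Hhelper69.Cov.dil_main α δ hα hα1 hδ

/-- The instance for the range of the problem: for every choice `a` all but at most
`N^(0.02-ε/2)` of the integers `1 ≤ l ≤ N^0.02` are such that `l a` covers `N^(1-ε)` integers. -/
theorem instance_problem (ε : ℝ) (hε : 0 < ε) :
    ∀ᶠ N : ℕ in atTop, ∀ a : ℕ → ℤ,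
      (((Finset.Icc 1 ⌊(N : ℝ) ^ (0.02 : ℝ)⌋₊).filter fun l : ℕ =>
        (sievedCard N (fun p => l * a p) ((N : ℝ) ^ (0.51 : ℝ)) ((N : ℝ) ^ (0.52 : ℝ)) : ℝ) <
          (N : ℝ) ^ (1 - ε)).card : ℝ) ≤ (N : ℝ) ^ (0.02 - ε / 2) := by
  have hcast := tendsto_natCast_atTop_atTop (R := ℝ)
  filter_upwards [result 0.51 (ε / 4) (by norm_num) (by norm_num) (by positivity),
    hcast.eventually (Pool.Agent.Hhelper87.Cover.ev_pow 2 (0.51) (0.52) (by norm_num)),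
    hcast.eventually (Pool.Agent.Hhelper87.Cover.ev_pow 2 0 (ε / 4) (by positivity)),
    hcast.eventually (Pool.Agent.Hhelper87.Cover.ev_pow 1 (0.02) (0.51) (by norm_num)),
    eventually_ge_atTop 2] with N h1 h2 h3 h4 hN2 a
  rw [Real.rpow_zero, mul_one] at h3
  rw [one_mul] at h4
  have hN0 : (0 : ℝ) < N := by
    have : (2 : ℝ) ≤ N := by exact_mod_cast hN2
    linarith
  have hL : ((⌊(N : ℝ) ^ (0.02 : ℝ)⌋₊ : ℕ) : ℝ) ≤ (N : ℝ) ^ (0.02 : ℝ) :=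
    Nat.floor_le (by positivity)
  have h5 := h1 ⌊(N : ℝ) ^ (0.02 : ℝ)⌋₊ (hL.trans_lt h4) ((N : ℝ) ^ (0.52 : ℝ)) h2.le a
    ((N : ℝ) ^ (1 - ε)) (by positivity)
  refine h5.trans ?_
  have e1 : (N : ℝ) ^ ((2 : ℝ) * 0.51 - 2) = (N : ℝ) ^ (0.02 : ℝ) / N := by
    have e : (2 : ℝ) * 0.51 - 2 = 0.02 - 1 := by norm_num
    rw [e, Real.rpow_sub hN0, Real.rpow_one]
  have h6 : (N : ℝ) ^ ((2 : ℝ) * 0.51 - 2) + ((⌊(N : ℝ) ^ (0.02 : ℝ)⌋₊ : ℕ) : ℝ) / N ≤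
      2 * ((N : ℝ) ^ (0.02 : ℝ) / N) := by
    rw [e1, two_mul]
    exact add_le_add le_rfl (div_le_div_of_nonneg_right hL hN0.le)
  calc (N : ℝ) ^ (1 - ε) * (N : ℝ) ^ (ε / 4) *
        ((N : ℝ) ^ ((2 : ℝ) * 0.51 - 2) + ((⌊(N : ℝ) ^ (0.02 : ℝ)⌋₊ : ℕ) : ℝ) / N)
      ≤ (N : ℝ) ^ (1 - ε) * (N : ℝ) ^ (ε / 4) * (2 * ((N : ℝ) ^ (0.02 : ℝ) / N)) :=
        mul_le_mul_of_nonneg_left h6 (by positivity)
    _ = 2 * ((N : ℝ) ^ (1 - ε) * (N : ℝ) ^ (ε / 4) * ((N : ℝ) ^ (0.02 : ℝ) / N)) := by ring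
    _ = 2 * (N : ℝ) ^ (0.02 - 3 * ε / 4) := by
        have e2 : (N : ℝ) ^ (0.02 : ℝ) / N = (N : ℝ) ^ ((0.02 : ℝ) - 1) := by
          rw [Real.rpow_sub hN0, Real.rpow_one]
        rw [e2, ← Real.rpow_add hN0, ← Real.rpow_add hN0]
        congr 2
        ring
    _ ≤ (N : ℝ) ^ (ε / 4) * (N : ℝ) ^ (0.02 - 3 * ε / 4) :=
        mul_le_mul_of_nonneg_right h3.le (by positivity)
    _ = (N : ℝ) ^ (0.02 - ε / 2) := by
        rw [← Real.rpow_add hN0]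
        congr 1
        ring

end Pool.Agent.Results.MP_4d2d66_nt.Dilates
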