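import Mathlib
import Pool.Agent.Hhelper69.Cov.Cor

/-!
One residue class for each prime near `N^β`, `1/2 < β < 1`: the number of choices of residues with a
small union. For the primes in `[N^0.51, N^0.52)` all but at most the power `1/13` of the number
`∏ p` of all choices cover at least `N^(1-ε)` integers of `[1, N]`.
-/

set_option autoImplicit false

namespace Pool.Agent.Results.MP_4d2d66_nt.ExceptionalSet

open Finset Filter Topology Pool.Agent.Hhelper69.Cov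

/-- The primes `p` with `lo ≤ p < hi`. -/
noncomputable def primesIn (lo hi : ℝ) : Finset ℕ :=
  (range ⌈hi⌉₊).filter fun p => p.Prime ∧ lo ≤ (p : ℝ)

/-- The integers of `[1, N]` which lie in the class of `a(p)` modulo `p` for some `p ∈ P`. -/
def covered (N : ℕ) (P : Finset ℕ) (a : {p // p ∈ P} → ℕ) : Finset ℕ :=
  (Icc 1 N).filter fun n => ∃ p : {p // p ∈ P}, n ≡ a p [MOD p.1]

/-- Given a list `R(p)` of residues for each `p ∈ P`: the choices `a` of one member `a(p)` of each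
list which cover fewer than `M` integers of `[1, N]`. -/
noncomputable def bad (N : ℕ) (P : Finset ℕ) (R : {p // p ∈ P} → Finset ℕ) (M : ℝ) :
    Finset ({p // p ∈ P} → ℕ) :=
  (Fintype.piFinset R).filter fun a => ((covered N P a).card : ℝ) < M

/-- The full lists: all residues `0 ≤ a(p) < p`. -/
def full (P : Finset ℕ) (p : {p // p ∈ P}) : Finset ℕ := range p.1

theorem mem_primesIn {lo hi : ℝ} {p : ℕ} :
    p ∈ primesIn lo hi ↔ p.Prime ∧ lo ≤ (p : ℝ) ∧ (p : ℝ) < hi := by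
  unfold primesIn
  rw [Finset.mem_filter, Finset.mem_range, Nat.lt_ceil]
  tauto

theorem bad_mono (N : ℕ) (P : Finset ℕ) (R : {p // p ∈ P} → Finset ℕ) (M : ℝ)
    (hR : ∀ p, R p ⊆ range p.1) : bad N P R M ⊆ bad N P (full P) M := by
  unfold bad
  refine Finset.filter_subset_filter _ ?_
  intro a ha
  rw [Fintype.mem_piFinset] at ha ⊢
  exact fun p => hR p (ha p)

theorem bad_eq (N : ℕ) (P : Finset ℕ) (M : ℝ) :
    bad N P (full P) M = (Fintype.piFinset fun p : {p // p ∈ P} => range p.1).filter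
      fun a => ((uni N (fun p : {p // p ∈ P} => p.1) a Finset.univ).card : ℝ) < M := by
  unfold bad full
  refine Finset.filter_congr fun a ha => ?_
  rw [Fintype.mem_piFinset] at ha
  have h1 : covered N P a = uni N (fun p : {p // p ∈ P} => p.1) a Finset.univ := by
    ext n
    unfold covered uni cls
    rw [Finset.mem_filter, Finset.mem_biUnion]
    constructor
    · rintro ⟨h1, p, h2⟩
      refine ⟨p, Finset.mem_univ _, Finset.mem_filter.2 ⟨h1, ?_⟩⟩
      have h3 : n % p.1 = a p % p.1 := h2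
      rw [h3, Nat.mod_eq_of_lt (Finset.mem_range.1 (ha p))]
    · rintro ⟨p, -, h1⟩
      rw [Finset.mem_filter] at h1
      refine ⟨h1.1, p, ?_⟩
      show n % p.1 = a p % p.1
      rw [h1.2, Nat.mod_eq_of_lt (Finset.mem_range.1 (ha p))]
  rw [h1]

/-- the threshold `N^(1-ε)`, general form -/
theorem range_bound (β ε : ℝ) (hβ : 1 / 2 < β) (hβ1 : β < 1) (hε : 0 < ε) :
    ∃ c : ℝ, 0 < c ∧ ∀ᶠ N : ℕ in atTop, ∀ P : Finset ℕ,
      (∀ p ∈ P, p.Prime ∧ (p : ℝ) ≤ 2 * (N : ℝ) ^ β) → (N : ℝ) ^ (β - c) ≤ P.card →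
      ((bad N P (full P) ((N : ℝ) ^ (1 - ε))).card : ℝ) ≤ (∏ p ∈ P, (p : ℝ)) ^ (2 - 1 / β) ∧
      ∀ R : {p // p ∈ P} → Finset ℕ,
        (∀ p, R p ⊆ range p.1 ∧ (N : ℝ) ^ (2 * β - 1) ≤ (R p).card) →
        ((bad N P R ((N : ℝ) ^ (1 - ε))).card : ℝ) ≤
          (N : ℝ) ^ (-(ε / 2) * P.card) * ∏ p, ((R p).card : ℝ) := by
  obtain ⟨c, hc0, hc⟩ := cor_bound β ε hβ hβ1 hε
  obtain ⟨η, hη⟩ : ∃ η : ℝ, η = min (ε / 4) (1 / 4) := ⟨_, rfl⟩
  have hη0 : 0 < η := by rw [hη]; positivity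
  have hηε : η ≤ ε / 4 := by rw [hη]; exact min_le_left _ _
  have hη4 : η ≤ 1 / 4 := by rw [hη]; exact min_le_right _ _
  refine ⟨min c (η / 2), by positivity, ?_⟩
  filter_upwards [hc, prod_lower β η hη0 (by linarith) hβ1.le, eventually_ge_atTop 2] with
    N h1 h2 hN2 P hP hn
  have hN0 : (0 : ℝ) < N := by
    have : (2 : ℝ) ≤ N := by exact_mod_cast hN2
    linarith
  have hNR : (1 : ℝ) ≤ N := by
    have : (2 : ℝ) ≤ N := by exact_mod_cast hN2
    linarith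
  have hβ0 : 0 < β := by linarith
  have hn1 : (N : ℝ) ^ (β - c) ≤ P.card :=
    le_trans (Real.rpow_le_rpow_of_exponent_le hNR (by
      have := min_le_left c (η / 2)
      linarith)) hn
  have hn2 : (N : ℝ) ^ (β - η / 2) ≤ P.card :=
    le_trans (Real.rpow_le_rpow_of_exponent_le hNR (by
      have := min_le_right c (η / 2)
      linarith)) hn
  have h3 := h1 {p // p ∈ P} (fun p => p.1) Subtype.val_injective (fun p => hP p.1 p.2)
    (by rw [Fintype.card_coe]; exact hn1)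
  rw [← bad_eq, Fintype.card_coe] at h3
  have h4 := h2 P (fun p hp => (hP p hp).1.pos) hn2
  constructor
  · refine h3.trans ?_
    have he : 0 ≤ 2 - 1 / β := by
      have : 1 / β ≤ 2 := by
        rw [div_le_iff₀ hβ0]
        linarith
      linarith
    refine le_trans ?_ (Real.rpow_le_rpow (by positivity) h4 he)
    rw [← Real.rpow_natCast, ← Real.rpow_natCast, ← Real.rpow_mul hN0.le, ← Real.rpow_mul hN0.le,
      ← Real.rpow_mul hN0.le]
    refine Real.rpow_le_rpow_of_exponent_le hNR ?_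
    have h5 : (β - 2 * η) * (2 - 1 / β) = 2 * β - 1 - 2 * η * (2 - 1 / β) := by
      field_simp
    have h6 : 2 - 1 / β ≤ 1 := by
      have : 1 ≤ 1 / β := by
        rw [le_div_iff₀ hβ0]
        linarith
      linarith
    have h7 : 2 * β - 1 - ε / 2 ≤ (β - 2 * η) * (2 - 1 / β) := by
      rw [h5]
      nlinarith
    calc (2 * β - 1 - ε / 2) * (P.card : ℝ) ≤ ((β - 2 * η) * (2 - 1 / β)) * P.card :=
          mul_le_mul_of_nonneg_right h7 (by positivity)
      _ = _ := by ring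
  · intro R hR
    have h5 : ((bad N P R ((N : ℝ) ^ (1 - ε))).card : ℝ) ≤
        ((bad N P (full P) ((N : ℝ) ^ (1 - ε))).card : ℝ) := by
      exact_mod_cast Finset.card_le_card (bad_mono N P R _ fun p => (hR p).1)
    refine (h5.trans h3).trans ?_
    have h6 : ((N : ℝ) ^ (2 * β - 1)) ^ P.card ≤ ∏ p, ((R p).card : ℝ) := by
      have h7 : ∏ p : {p // p ∈ P}, (N : ℝ) ^ (2 * β - 1) ≤ ∏ p, ((R p).card : ℝ) :=
        Finset.prod_le_prod (fun _ _ => by positivity) fun p _ => (hR p).2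
      rwa [Finset.prod_const, Finset.card_univ, Fintype.card_coe] at h7
    have h8 : ((N : ℝ) ^ (2 * β - 1 - ε / 2)) ^ P.card =
        (N : ℝ) ^ (-(ε / 2) * P.card) * ((N : ℝ) ^ (2 * β - 1)) ^ P.card := by
      rw [← Real.rpow_natCast, ← Real.rpow_natCast, ← Real.rpow_mul hN0.le,
        ← Real.rpow_mul hN0.le, ← Real.rpow_add hN0]
      congr 1
      ring
    rw [h8]
    exact mul_le_mul_of_nonneg_left h6 (by positivity)

/-- many primes in `[y, 2y)`, `y ≥ N^α / 2` -/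
theorem many_dyadic (α c : ℝ) (hα : 0 < α) (hα1 : α ≤ 1) (hc : 0 < c) :
    ∀ᶠ N : ℕ in atTop, ∀ y : ℝ, (N : ℝ) ^ α / 2 ≤ y → ∀ S : Finset ℕ,
      (∀ p : ℕ, p.Prime → y ≤ p → (p : ℝ) < 2 * y → p ∈ S) → (N : ℝ) ^ (α - c) ≤ S.card := by
  obtain ⟨η, hη⟩ : ∃ η : ℝ, η = min (c / 2) (1 / 2) := ⟨_, rfl⟩
  have hη0 : 0 < η := by rw [hη]; positivity
  have hηc : η ≤ c / 2 := by rw [hη]; exact min_le_left _ _
  have hη2 : η ≤ 1 / 2 := by rw [hη]; exact min_le_right _ _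
  obtain ⟨y0, hy0⟩ := Filter.eventually_atTop.1 (Pool.Agent.Hhelper87.Cover.primes_count η hη0)
  have h1 : Tendsto (fun N : ℕ => (N : ℝ) ^ α / 2) atTop atTop :=
    ((tendsto_rpow_atTop hα).comp (tendsto_natCast_atTop_atTop (R := ℝ))).atTop_div_const
      (by norm_num)
  filter_upwards [h1.eventually_ge_atTop y0, ev_powN 2 (α - c) (α - η) (by linarith),
    eventually_ge_atTop 2] with N h2 h3 hN2 y hy S hS
  have hN0 : (0 : ℝ) < N := by
    have : (2 : ℝ) ≤ N := by exact_mod_cast hN2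
    linarith
  have hNR : (1 : ℝ) ≤ N := by
    have : (2 : ℝ) ≤ N := by exact_mod_cast hN2
    linarith
  have h4 := hy0 y (h2.trans hy) S hS
  refine le_trans ?_ h4
  have h5 : ((N : ℝ) ^ α / 2) ^ (1 - η) ≤ y ^ (1 - η) :=
    Real.rpow_le_rpow (by positivity) hy (by linarith)
  refine le_trans ?_ h5
  rw [Real.div_rpow (by positivity) (by norm_num), ← Real.rpow_mul hN0.le]
  have h6 : (2 : ℝ) ^ (1 - η) ≤ 2 := by
    calc (2 : ℝ) ^ (1 - η) ≤ (2 : ℝ) ^ (1 : ℝ) :=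
          Real.rpow_le_rpow_of_exponent_le (by norm_num) (by linarith)
      _ = 2 := Real.rpow_one _
  have h7 : (N : ℝ) ^ (α - η) ≤ (N : ℝ) ^ (α * (1 - η)) :=
    Real.rpow_le_rpow_of_exponent_le hNR (by nlinarith)
  have h8 : (0 : ℝ) < (2 : ℝ) ^ (1 - η) := by positivity
  rw [le_div_iff₀ h8]
  calc (N : ℝ) ^ (α - c) * (2 : ℝ) ^ (1 - η) ≤ (N : ℝ) ^ (α - c) * 2 :=
        mul_le_mul_of_nonneg_left h6 (by positivity)
    _ = 2 * (N : ℝ) ^ (α - c) := by ring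
    _ ≤ _ := h3.le.trans h7

/-- (1) Let `1/2 < β < 1`, `0 < c ≤ 1/8` and `16 c ≤ δ`. For all large `N`, every set `P` of primes
at most `N^β` with `|P| ≥ N^(β-c)` and every real `M` with `0 ≤ M ≤ c |P| N^(1-β)`: at most
`(M N^(2β-2+δ))^|P|` of the `∏ p` choices of residues cover fewer than `M` integers of `[1, N]`.
(2) For `P` the primes in `[N^0.51, N^0.52)` and `N` large in terms of `ε > 0`: at most `(∏ p)^(1/13)`
choices cover fewer than `N^(1-ε)` integers; and for arbitrary lists `R(p)` of at least `N^0.04`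
residues at most the proportion `N^(-ε|P|/2)` of the choices from the lists does.
(3) For `P` the primes in `[N^0.51, 2N^0.51)` the same holds with `2/51` and `N^0.02`. -/
theorem result :
    (∀ β δ c : ℝ, 1 / 2 < β → β < 1 → 0 < c → c ≤ 1 / 8 → 16 * c ≤ δ →
      ∀ᶠ N : ℕ in atTop, ∀ P : Finset ℕ, (∀ p ∈ P, p.Prime ∧ (p : ℝ) ≤ (N : ℝ) ^ β) →
        (N : ℝ) ^ (β - c) ≤ P.card → ∀ M : ℝ, 0 ≤ M → M ≤ c * P.card * (N : ℝ) ^ (1 - β) →
        ((bad N P (full P) M).card : ℝ) ≤ (M * (N : ℝ) ^ (2 * β - 2 + δ)) ^ P.card) ∧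
    (∀ ε : ℝ, 0 < ε → ∀ᶠ N : ℕ in atTop, ∀ P : Finset ℕ,
        P = primesIn ((N : ℝ) ^ (0.51 : ℝ)) ((N : ℝ) ^ (0.52 : ℝ)) →
        ((bad N P (full P) ((N : ℝ) ^ (1 - ε))).card : ℝ) ≤ (∏ p ∈ P, (p : ℝ)) ^ (1 / 13 : ℝ) ∧
        ∀ R : {p // p ∈ P} → Finset ℕ,
          (∀ p, R p ⊆ range p.1 ∧ (N : ℝ) ^ (0.04 : ℝ) ≤ (R p).card) →
          ((bad N P R ((N : ℝ) ^ (1 - ε))).card : ℝ) ≤
            (N : ℝ) ^ (-(ε / 2) * P.card) * ∏ p, ((R p).card : ℝ)) ∧
    (∀ ε : ℝ, 0 < ε → ∀ᶠ N : ℕ in atTop, ∀ P : Finset ℕ,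
        P = primesIn ((N : ℝ) ^ (0.51 : ℝ)) (2 * (N : ℝ) ^ (0.51 : ℝ)) →
        ((bad N P (full P) ((N : ℝ) ^ (1 - ε))).card : ℝ) ≤ (∏ p ∈ P, (p : ℝ)) ^ (2 / 51 : ℝ) ∧
        ∀ R : {p // p ∈ P} → Finset ℕ,
          (∀ p, R p ⊆ range p.1 ∧ (N : ℝ) ^ (0.02 : ℝ) ≤ (R p).card) →
          ((bad N P R ((N : ℝ) ^ (1 - ε))).card : ℝ) ≤
            (N : ℝ) ^ (-(ε / 2) * P.card) * ∏ p, ((R p).card : ℝ)) := by
  refine ⟨?_, ?_, ?_⟩
  · intro β δ c hβ hβ1 hc0 hc8 hcδ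
    filter_upwards [gen_bound β δ c hβ hβ1 hc0 hc8 hcδ] with N h P hP hn M hM0 hM
    have h1 := h {p // p ∈ P} (fun p => p.1) Subtype.val_injective (fun p => hP p.1 p.2)
      (by rw [Fintype.card_coe]; exact hn) M hM0 (by rw [Fintype.card_coe]; exact hM)
    rwa [← bad_eq, Fintype.card_coe] at h1
  · intro ε hε
    obtain ⟨c, hc0, hc⟩ := range_bound 0.52 ε (by norm_num) (by norm_num) hε
    filter_upwards [hc, many_dyadic 0.52 c (by norm_num) (by norm_num) hc0,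
      ev_powN 2 0.51 0.52 (by norm_num)] with N h1 h2 h3 P hP
    have h4 := h1 P (fun p hp => by
      rw [hP, mem_primesIn] at hp
      refine ⟨hp.1, ?_⟩
      have : 0 ≤ (N : ℝ) ^ (0.52 : ℝ) := by positivity
      linarith [hp.2.2]) (h2 ((N : ℝ) ^ (0.52 : ℝ) / 2) le_rfl P fun p hp h5 h6 => by
        rw [hP, mem_primesIn]
        exact ⟨hp, by linarith, by linarith⟩)
    have e1 : (2 : ℝ) - 1 / 0.52 = 1 / 13 := by norm_num
    have e2 : (2 : ℝ) * 0.52 - 1 = 0.04 := by norm_num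
    rw [e1, e2] at h4
    exact h4
  · intro ε hε
    obtain ⟨c, hc0, hc⟩ := range_bound 0.51 ε (by norm_num) (by norm_num) hε
    filter_upwards [hc, many_dyadic 0.51 c (by norm_num) (by norm_num) hc0] with N h1 h2 P hP
    have h0 : 0 ≤ (N : ℝ) ^ (0.51 : ℝ) := by positivity
    have h4 := h1 P (fun p hp => by
      rw [hP, mem_primesIn] at hp
      exact ⟨hp.1, hp.2.2.le⟩) (h2 ((N : ℝ) ^ (0.51 : ℝ)) (by linarith) P fun p hp h5 h6 => by
        rw [hP, mem_primesIn]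
        exact ⟨hp, h5, h6⟩)
    have e1 : (2 : ℝ) - 1 / 0.51 = 2 / 51 := by norm_num
    have e2 : (2 : ℝ) * 0.51 - 1 = 0.02 := by norm_num
    rw [e1, e2] at h4
    exact h4

end Pool.Agent.Results.MP_4d2d66_nt.ExceptionalSet
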