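import Mathlib
import Pool.Prelude.Def_F_b2ee6af0
import Pool.Agent.Hhelper87.Cover.Main

/-!
One residue class for each prime in `[N^α, 2N^α)`, `1/2 < α < 1`: a power improvement on the
Cauchy-Schwarz exponent `2 - 2α`.
-/

set_option autoImplicit false

namespace Pool.Agent.Results.MP_4d2d66_nt.PowerSaving

open Filter Topology N7c497599

/-- Let `1/2 < α < 1`, let `s ≥ 1` be an integer and let `0 < c < 1 - α` satisfy
`2 s c < 2α - 1` and `3 c < 2α - 1 - (1 - α)/s`. Let the primes range over `[N^α, hi N)` where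
`hi N ≥ 2 N^α` for large `N`. Then for all large `N` and every choice `a` of residues at least
`N^(2 - 2α + c)` integers of `[1, N]` are covered. (For the problem take `α = 0.51`, `s = 26`,
`c = 0.00038` and `hi N = N^0.52`: at least `N^0.98038` integers are covered.) -/
theorem result (α c : ℝ) (s : ℕ) (hs : 0 < s) (hα : 1 / 2 < α) (hα1 : α < 1)
    (hc : 0 < c) (hc1 : c < 1 - α) (h1 : 2 * s * c < 2 * α - 1)
    (h2 : 3 * c < 2 * α - 1 - (1 - α) / s)
    (hi : ℕ → ℝ) (hhi : ∀ᶠ N : ℕ in atTop, 2 * (N : ℝ) ^ α ≤ hi N) :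
    ∀ᶠ N : ℕ in atTop, ∀ a : ℕ → ℤ,
      (N : ℝ) ^ (2 - 2 * α + c) ≤ sievedCard N a ((N : ℝ) ^ α) (hi N) := by
  filter_upwards [Pool.Agent.Hhelper87.Cover.cover_bound α c s hs hα hα1 hc h1 h2 hc1, hhi]
    with N hN hN2 a
  refine (hN a).trans ?_
  exact_mod_cast Pool.Agent.Hhelper87.Cover.sievedCard_mono N a le_rfl hN2

/-- The instance for the range of the problem. -/
theorem instance_problem : ∀ᶠ N : ℕ in atTop, ∀ a : ℕ → ℤ,
    (N : ℝ) ^ (0.98038 : ℝ) ≤
      sievedCard N a ((N : ℝ) ^ (0.51 : ℝ)) ((N : ℝ) ^ (0.52 : ℝ)) := by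
  have h2 := (tendsto_natCast_atTop_atTop (R := ℝ)).eventually
    (Pool.Agent.Hhelper87.Cover.ev_pow 2 (0.51) (0.52) (by norm_num))
  have h := result (0.51) (0.00038) 26 (by norm_num)
    (by norm_num) (by norm_num) (by norm_num) (by norm_num) (by norm_num) (by norm_num)
    (fun N => (N : ℝ) ^ (0.52 : ℝ)) (h2.mono fun N h => h.le)
  filter_upwards [h] with N hN a
  have e : (2 : ℝ) - 2 * 0.51 + 0.00038 = 0.98038 := by norm_num
  have h3 := hN a
  rwa [e] at h3

end Pool.Agent.Results.MP_4d2d66_nt.PowerSaving
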