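import Mathlib
import Pool.Prelude.Def_F_b2ee6af0
import Pool.Agent.Hhelper69.Ray.AE

/-!
One residue class for each prime in `[N^α, 2N^α)`, `1/2 < α < 1`: for every choice `a` of residues
and almost all `θ` in `[0, 1)` the classes `a(p) + ⌊θp⌋` cover `N^(1-o(1))` integers of `[1, N]`.
-/

set_option autoImplicit false

namespace Pool.Agent.Results.MP_4d2d66_nt.RayChoices

open Filter Topology MeasureTheory N7c497599

/-- Let `1/2 < α < 1` and `δ > 0`. For all large `N`, all real `hi ≥ 2N^α`, every choice `a` of one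
residue class modulo each prime in `[N^α, hi)` and every real `M ≥ 0`: the set of the `θ` in
`[0, 1)` such that the choice `p ↦ a(p) + ⌊θp⌋` covers fewer than `M` integers of `[1, N]` has
measure at most `M N^(δ-1)`. -/
theorem result (α δ : ℝ) (hα : 1 / 2 < α) (hα1 : α < 1) (hδ : 0 < δ) :
    ∀ᶠ N : ℕ in atTop, ∀ hi : ℝ, 2 * (N : ℝ) ^ α ≤ hi → ∀ a : ℕ → ℤ, ∀ M : ℝ, 0 ≤ M →
      volume {θ : ℝ | θ ∈ Set.Ico (0 : ℝ) 1 ∧
        (sievedCard N (fun p => a p + ⌊θ * p⌋) ((N : ℝ) ^ α) hi : ℝ) < M} ≤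
        ENNReal.ofReal (M * (N : ℝ) ^ (δ - 1)) :=
  Pool.Agent.Hhelper69.Ray.ray_main α δ (by linarith) hα1 hδ

/-- For every choice `a` and almost every `θ` in `[0, 1)` the choice `p ↦ a(p) + ⌊θp⌋` satisfies
the bound of the problem: it covers `N^(1-ε)` integers of `[1, N]` for all `ε > 0` and all large
`N`. -/
theorem almost_every (a : ℕ → ℤ) :
    ∀ᵐ θ : ℝ, θ ∈ Set.Ico (0 : ℝ) 1 → ∀ ε : ℝ, 0 < ε → ∀ᶠ N : ℕ in atTop, (N : ℝ) ^ (1 - ε) ≤
      (sievedCard N (fun p => a p + ⌊θ * p⌋) ((N : ℝ) ^ (0.51 : ℝ)) ((N : ℝ) ^ (0.52 : ℝ)) : ℝ) :=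
  Pool.Agent.Hhelper69.Ray.ae_all a

end Pool.Agent.Results.MP_4d2d66_nt.RayChoices
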